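import Mathlib
import Pool.Agent.Helper5.Pg.Defs

set_option autoImplicit false
open MeasureTheory Set Filter Topology

namespace Pool.Agent.Helper5.PG

theorem floor_ineq (w : ℝ → ℝ) (hw : IsWeight w) (K : ℝ) (hK1 : 1 ≤ K)
    (hK : ∀ t, 0 ≤ t → w t ≤ K) (t₀ t : ℝ) (h0 : 0 < t₀) (ht : 0 ≤ t) (h1 : w t₀ ≤ 1) :
    (t / t₀ - 1) * (-Real.log (w t₀)) - Real.log K ≤ -Real.log (w t) := by
  have hind : ∀ (n : ℕ) (r : ℝ), 0 ≤ r → w (n * t₀ + r) ≤ w t₀ ^ n * w r := by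
    intro n
    induction n with
    | zero => intro r _; simp
    | succ n ih =>
      intro r hr
      have e : ((n + 1 : ℕ) : ℝ) * t₀ + r = t₀ + (n * t₀ + r) := by push_cast; ring
      rw [e]
      have hn : 0 ≤ (n : ℝ) * t₀ + r := by positivity
      calc w (t₀ + (n * t₀ + r)) ≤ w t₀ * w (n * t₀ + r) := hw.submul _ _ h0.le hn
        _ ≤ w t₀ * (w t₀ ^ n * w r) := mul_le_mul_of_nonneg_left (ih r hr) (hw.pos _ h0.le).le
        _ = w t₀ ^ (n + 1) * w r := by ring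
  set n := ⌊t / t₀⌋₊ with hn
  have hq : 0 ≤ t / t₀ := div_nonneg ht h0.le
  have hle : (n : ℝ) ≤ t / t₀ := Nat.floor_le hq
  have hlt : t / t₀ < n + 1 := Nat.lt_floor_add_one _
  have hr : 0 ≤ t - n * t₀ := by
    have : (n : ℝ) * t₀ ≤ t := by rwa [le_div_iff₀ h0] at hle
    linarith
  have h2 := hind n (t - n * t₀) hr
  rw [add_sub_cancel] at h2
  have p0 := hw.pos _ h0.le
  have pt := hw.pos _ ht
  have h3 : w t ≤ w t₀ ^ n * K := h2.trans (mul_le_mul_of_nonneg_left (hK _ hr) (pow_nonneg p0.le _))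
  have h4 := Real.log_le_log pt h3
  rw [Real.log_mul (pow_pos p0 n).ne' (by linarith), Real.log_pow] at h4
  have h5 : 0 ≤ -Real.log (w t₀) := by
    have := Real.log_nonpos p0.le h1
    linarith
  have h6 : (t / t₀ - 1) * (-Real.log (w t₀)) ≤ n * (-Real.log (w t₀)) :=
    mul_le_mul_of_nonneg_right (by linarith) h5
  linarith

end Pool.Agent.Helper5.PG
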