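import Mathlib
import Pool.Agent.Helper5.Pg.Defs
import Pool.Agent.Helper5.Pa.FloorIneq

set_option autoImplicit false
open MeasureTheory Set Filter Topology

namespace Pool.Agent.Helper5.PG

theorem exists_convex (w : ℝ → ℝ) (hw : IsWeight w) (hb : ∃ K : ℝ, ∀ t, 0 ≤ t → w t ≤ K) :
    ∃ φ : ℝ → ℝ, ConvexOn ℝ univ φ ∧ (∀ s, 0 ≤ φ s) ∧ ∃ C : ℝ, ∀ s : ℝ,
      φ s ≤ -Real.log (w (Real.exp s)) + C ∧ -Real.log (w (Real.exp s / 2)) ≤ φ s := by
  obtain ⟨K0, hK0⟩ := hb
  obtain ⟨K, hKdef⟩ : ∃ K, K = max K0 1 := ⟨_, rfl⟩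
  have hK1 : 1 ≤ K := by
    rw [hKdef]
    exact le_max_right _ _
  have hK : ∀ t, 0 ≤ t → w t ≤ K := fun t ht => (hK0 t ht).trans (by
    rw [hKdef]
    exact le_max_left _ _)
  obtain ⟨g, hg⟩ : ∃ g : ℝ → ℝ → ℝ, ∀ x s, g x s =
      max 0 (-Real.log (w (Real.exp x))) * max 0 (Real.exp (s - x) - 1) :=
    ⟨fun x s => max 0 (-Real.log (w (Real.exp x))) * max 0 (Real.exp (s - x) - 1),
      fun _ _ => rfl⟩
  have hg0 : ∀ x s, 0 ≤ g x s := by
    intro x s
    rw [hg]
    exact mul_nonneg (le_max_left _ _) (le_max_left _ _)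
  have hbase : ∀ s, 0 ≤ -Real.log (w (Real.exp s)) + Real.log K := by
    intro s
    have h1 := Real.log_le_log (hw.pos _ (Real.exp_pos s).le) (hK _ (Real.exp_pos s).le)
    linarith
  have hU : ∀ x s, g x s ≤ -Real.log (w (Real.exp s)) + Real.log K := by
    intro x s
    rw [hg]
    rcases le_or_gt (-Real.log (w (Real.exp x))) 0 with h1 | h1
    · rw [max_eq_left h1, zero_mul]
      exact hbase s
    · rcases lt_or_ge s x with h2 | h2
      · have h3 : Real.exp (s - x) - 1 ≤ 0 := by
          have := Real.exp_le_one_iff.2 (show s - x ≤ 0 by linarith)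
          linarith
        rw [max_eq_left h3, mul_zero]
        exact hbase s
      · have h3 : 0 ≤ Real.exp (s - x) - 1 := by
          have := Real.one_le_exp (show 0 ≤ s - x by linarith)
          linarith
        rw [max_eq_right h3, max_eq_right h1.le]
        have h4 : w (Real.exp x) ≤ 1 := by
          by_contra hc
          push Not at hc
          have := Real.log_pos hc
          linarith
        have h5 := floor_ineq w hw K hK1 hK (Real.exp x) (Real.exp s) (Real.exp_pos x)
          (Real.exp_pos s).le h4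
        rw [Real.exp_sub, mul_comm]
        linarith
  have hbdd : ∀ s, BddAbove (Set.range (fun x => g x s)) := by
    intro s
    refine ⟨-Real.log (w (Real.exp s)) + Real.log K, ?_⟩
    rintro _ ⟨x, rfl⟩
    exact hU x s
  refine ⟨fun s => ⨆ x, g x s, ⟨convex_univ, ?_⟩, fun s => Real.iSup_nonneg (fun x => hg0 x s),
    Real.log K, ?_⟩
  · intro s1 _ s2 _ a b ha hb hab
    simp only [smul_eq_mul]
    apply ciSup_le
    intro x
    have e1 : g x s1 ≤ ⨆ x, g x s1 := le_ciSup (hbdd s1) x
    have e2 : g x s2 ≤ ⨆ x, g x s2 := le_ciSup (hbdd s2) x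
    have e3 : g x (a * s1 + b * s2) ≤ a * g x s1 + b * g x s2 := by
      rw [hg, hg, hg]
      have c1 := convexOn_exp.2 (mem_univ (s1 - x)) (mem_univ (s2 - x)) ha hb hab
      simp only [smul_eq_mul] at c1
      have c2 : a * (s1 - x) + b * (s2 - x) = a * s1 + b * s2 - x := by
        linear_combination -x * hab
      rw [c2] at c1
      have c3 : max 0 (Real.exp (a * s1 + b * s2 - x) - 1) ≤
          a * max 0 (Real.exp (s1 - x) - 1) + b * max 0 (Real.exp (s2 - x) - 1) := by
        apply max_le
        · exact add_nonneg (mul_nonneg ha (le_max_left _ _)) (mul_nonneg hb (le_max_left _ _))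
        · have d1 := mul_le_mul_of_nonneg_left (le_max_right 0 (Real.exp (s1 - x) - 1)) ha
          have d2 := mul_le_mul_of_nonneg_left (le_max_right 0 (Real.exp (s2 - x) - 1)) hb
          nlinarith
      have c4 := mul_le_mul_of_nonneg_left c3 (le_max_left 0 (-Real.log (w (Real.exp x))))
      linarith
    have e4 := mul_le_mul_of_nonneg_left e1 ha
    have e5 := mul_le_mul_of_nonneg_left e2 hb
    linarith
  · intro s
    constructor
    · exact ciSup_le (fun x => hU x s)
    · have h1 : g (s - Real.log 2) s ≤ ⨆ x, g x s := le_ciSup (hbdd s) (s - Real.log 2)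
      have h2 : g (s - Real.log 2) s = max 0 (-Real.log (w (Real.exp s / 2))) := by
        rw [hg]
        have e1 : Real.exp (s - Real.log 2) = Real.exp s / 2 := by
          rw [Real.exp_sub, Real.exp_log (by norm_num)]
        have e2 : Real.exp (s - (s - Real.log 2)) - 1 = 1 := by
          rw [sub_sub_cancel, Real.exp_log (by norm_num)]
          norm_num
        rw [e1, e2]
        simp
      rw [h2] at h1
      exact (le_max_right _ _).trans h1

end Pool.Agent.Helper5.PG
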