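import Mathlib
import Pool.Agent.Helper5.Pg.Defs

set_option autoImplicit false
open MeasureTheory Set Filter Topology

namespace Pool.Agent.Helper5.PG

theorem exists_mono (w : ℝ → ℝ) (hw : IsWeight w) (hb : ∃ K : ℝ, ∀ t, 0 ≤ t → w t ≤ K) :
    ∃ L : ℝ → ℝ, Continuous L ∧ Monotone L ∧ ∃ C : ℝ, ∀ t, 0 ≤ t →
      -Real.log (w t) ≤ L t ∧ L t ≤ -Real.log (w t) + C := by
  obtain ⟨K, hK⟩ := hb
  have hK0 : 0 < K := (hw.pos 0 le_rfl).trans_le (hK 0 le_rfl)
  obtain ⟨f, hf⟩ : ∃ f : ℝ → ℝ → ℝ, ∀ x s, f x s = -Real.log (w (max (x * s) 0)) :=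
    ⟨_, fun _ _ => rfl⟩
  have hfc : Continuous (Function.uncurry f) := by
    have e : Function.uncurry f = fun p : ℝ × ℝ => -Real.log (w (max (p.1 * p.2) 0)) := by
      funext p; exact hf p.1 p.2
    rw [e]
    have hm : Continuous (fun p : ℝ × ℝ => max (p.1 * p.2) 0) :=
      (continuous_fst.mul continuous_snd).max continuous_const
    have hwc : Continuous (fun p : ℝ × ℝ => w (max (p.1 * p.2) 0)) :=
      hw.cont.comp_continuous hm (fun p => mem_Ici.2 (le_max_right _ _))
    exact (hwc.log (fun p => (hw.pos _ (le_max_right _ _)).ne')).neg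
  have hfx : ∀ x, Continuous (f x) := fun x => hfc.comp (Continuous.prodMk_right x)
  have hbdd : ∀ x, BddAbove (f x '' Icc 0 1) := fun x =>
    (isCompact_Icc.image (hfx x)).bddAbove
  have hne : ∀ x, (f x '' Icc (0:ℝ) 1).Nonempty := fun x =>
    ⟨f x 0, 0, ⟨le_rfl, zero_le_one⟩, rfl⟩
  refine ⟨fun x => sSup (f x '' Icc 0 1), ?_, ?_, Real.log K, ?_⟩
  · exact isCompact_Icc.continuous_sSup hfc
  · intro x y hxy
    apply csSup_le (hne x)
    rintro _ ⟨s, hs, rfl⟩
    by_cases hx : x ≤ 0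
    · have e1 : f x s = f y 0 := by
        rw [hf, hf, mul_zero, max_self, max_eq_right (mul_nonpos_of_nonpos_of_nonneg hx hs.1)]
      rw [e1]
      exact le_csSup (hbdd y) ⟨0, ⟨le_rfl, zero_le_one⟩, rfl⟩
    · have hx0 : 0 < x := not_le.1 hx
      have hy0 : 0 < y := hx0.trans_le hxy
      have e1 : f x s = f y (s * x / y) := by
        rw [hf, hf]
        have : y * (s * x / y) = x * s := by field_simp
        rw [this]
      rw [e1]
      refine le_csSup (hbdd y) ⟨s * x / y, ⟨?_, ?_⟩, rfl⟩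
      · exact div_nonneg (mul_nonneg hs.1 hx0.le) hy0.le
      · rw [div_le_one hy0]
        nlinarith [hs.1, hs.2]
  · intro t ht
    constructor
    · have e1 : -Real.log (w t) = f t 1 := by
        rw [hf, mul_one, max_eq_left ht]
      rw [e1]
      exact le_csSup (hbdd t) ⟨1, ⟨zero_le_one, le_rfl⟩, rfl⟩
    · apply csSup_le (hne t)
      rintro _ ⟨s, hs, rfl⟩
      have hr0 : 0 ≤ t * s := mul_nonneg ht hs.1
      have hrt : t * s ≤ t := by nlinarith [hs.2]
      rw [hf, max_eq_left hr0]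
      have h1 : w t ≤ w (t * s) * K := by
        have h2 := hw.submul (t * s) (t - t * s) hr0 (by linarith)
        have e : t * s + (t - t * s) = t := by ring
        rw [e] at h2
        exact h2.trans (mul_le_mul_of_nonneg_left (hK _ (by linarith)) (hw.pos _ hr0).le)
      have h3 := Real.log_le_log (hw.pos t ht) h1
      rw [Real.log_mul (hw.pos _ hr0).ne' hK0.ne'] at h3
      linarith

end Pool.Agent.Helper5.PG
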