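import Mathlib
import Pool.Agent.Helper5.Pg.Defs
import Pool.Agent.Helper5.Pg.RadicalBound
import Pool.Agent.Helper5.Pe.Inl1Pw
import Pool.Agent.Helper5.Pk.GenOfCarl
import Pool.Agent.Helper5.Pk.Legendre

set_option autoImplicit false
open MeasureTheory Set Filter Topology

namespace Pool.Agent.Helper5.PG

theorem gen_of_cvx (w : ℝ → ℝ) (hw : IsWeight w) (hr : IsRadical w) (v : ℝ → ℝ) (C₀ : ℝ)
    (hcx : ConvexOn ℝ univ (fun s : ℝ => v (Real.exp s)))
    (hv : ∀ t, 0 < t → v t ≤ -Real.log (w t) + C₀)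
    (hψ : ∀ m : ℝ, ∃ C : ℝ, ∀ t, 0 < t → m * t - C ≤ v t) (a : ℝ) (ha : 0 < a) (c : ℂ)
    (hint : ¬ IntegrableOn (fun t : ℝ => v t * t ^ (-(1 + a / 2))) (Ioi 1)) :
    IsPolyGen w (pw a c) := by
  set θ : ℝ → ℝ := fun s => (1 / 8 : ℝ) * v (Real.exp ((2 / a) * s)) with hθdef
  have hθ : ConvexOn ℝ univ θ := by
    have h1 := hcx.comp_linearMap ((2 / a) • (LinearMap.id : ℝ →ₗ[ℝ] ℝ))
    have h2 := h1.smul (by norm_num : (0:ℝ) ≤ 1 / 8)
    rw [preimage_univ] at h2
    exact h2
  have hgrow : ∀ n : ℕ, ∃ B : ℝ, ∀ s : ℝ, n * s ≤ θ s + B := by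
    intro n
    obtain ⟨C, hC⟩ := hψ (4 * n * a)
    refine ⟨C / 8, fun s => ?_⟩
    have h1 := hC (Real.exp ((2 / a) * s)) (Real.exp_pos _)
    have h2 := Real.add_one_le_exp ((2 / a) * s)
    have h3 : 4 * (n : ℝ) * a * ((2 / a) * s + 1) ≤ 4 * n * a * Real.exp ((2 / a) * s) := by
      apply mul_le_mul_of_nonneg_left h2
      positivity
    have h4 : 4 * (n : ℝ) * a * ((2 / a) * s + 1) = 8 * (n * s) + 4 * n * a := by
      field_simp
      ring
    have h5 : 0 ≤ 4 * (n : ℝ) * a := by positivity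
    simp only [hθdef]
    linarith
  have hint' : ¬ IntegrableOn (fun s : ℝ => θ s * Real.exp (-s)) (Ioi 0) := by
    intro h
    apply hint
    have himg : (fun s : ℝ => Real.exp ((2 / a) * s)) '' Ioi 0 = Ioi 1 := by
      ext t
      simp only [mem_image, mem_Ioi]
      constructor
      · rintro ⟨s, hs, rfl⟩
        exact Real.one_lt_exp_iff.2 (by positivity)
      · intro ht
        refine ⟨(a / 2) * Real.log t, ?_, ?_⟩
        · have := Real.log_pos ht
          positivity
        · have h1 : (2 / a) * ((a / 2) * Real.log t) = Real.log t := by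
            field_simp
          rw [h1, Real.exp_log (by linarith)]
    have hder : ∀ x ∈ Ioi (0:ℝ), HasDerivWithinAt (fun s : ℝ => Real.exp ((2 / a) * s))
        (Real.exp ((2 / a) * x) * (2 / a)) (Ioi 0) x := by
      intro x _
      have h1 : HasDerivAt (fun s : ℝ => (2 / a) * s) (2 / a) x := by
        simpa using (hasDerivAt_id x).const_mul (2 / a)
      exact (h1.exp).hasDerivWithinAt
    have hinj : InjOn (fun s : ℝ => Real.exp ((2 / a) * s)) (Ioi 0) := by
      intro x _ y _ hxy
      have h1 := Real.exp_injective hxy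
      have h2 : (2 / a) ≠ 0 := by positivity
      exact mul_left_cancel₀ h2 h1
    have key := integrableOn_image_iff_integrableOn_abs_deriv_smul measurableSet_Ioi hder hinj
      (fun t : ℝ => v t * t ^ (-(1 + a / 2)))
    rw [himg] at key
    rw [key]
    have h2 : IntegrableOn (fun s : ℝ => (16 / a) * (θ s * Real.exp (-s))) (Ioi 0) :=
      h.const_mul (16 / a)
    refine h2.congr_fun (fun s _ => ?_) measurableSet_Ioi
    have h3 : |Real.exp ((2 / a) * s) * (2 / a)| = Real.exp ((2 / a) * s) * (2 / a) :=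
      abs_of_nonneg (by positivity)
    have h4 : (Real.exp ((2 / a) * s)) ^ (-(1 + a / 2)) = Real.exp (-((2 / a) * s) - s) := by
      rw [← Real.exp_mul]
      congr 1
      field_simp
      ring
    have h5 : Real.exp (-((2 / a) * s) - s) = Real.exp (-((2 / a) * s)) * Real.exp (-s) := by
      rw [← Real.exp_add]; ring_nf
    have h6 : Real.exp ((2 / a) * s) * Real.exp (-((2 / a) * s)) = 1 := by
      rw [← Real.exp_add]; simp
    simp only [smul_eq_mul, h3, h4, h5, hθdef]
    linear_combination (-(v (Real.exp ((2 / a) * s)) * Real.exp (-s) * (2 / a))) * h6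
  obtain ⟨S, hS1, hS2, hS3, hS4⟩ := legendre θ hθ hgrow hint'
  obtain ⟨C, hC⟩ := hψ ((4 / 3) * (|c.re| + 1))
  set D : ℝ := Real.exp ((a / 2) * (Real.log (2 * a) - 1)) with hD
  have hD0 : 0 < D := Real.exp_pos _
  set κ₁ : ℝ := (1 + D) ^ 2 * Real.exp (3 * C / 8) with hκ₁
  set κ : ℝ := κ₁ * Real.exp (C₀ / 2) with hκ
  have hκ₁0 : 0 < κ₁ := by positivity
  have hκ0 : 0 < κ := by positivity
  refine gen_of_carl w hw a ha c (inl1_pw w hw hr a ha c) (fun n => κ * S n)
    (fun n => mul_pos hκ0 (hS1 n)) (fun n => ?_) ?_ (fun n t ht => ?_)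
  · have h1 := hS2 n
    have h2 : 0 ≤ κ ^ 2 := by positivity
    have h3 := mul_le_mul_of_nonneg_left h1 h2
    show (κ * S (n + 1)) ^ 2 ≤ (κ * S n) * (κ * S (n + 2))
    linarith [h3, show (κ * S (n + 1)) ^ 2 = κ ^ 2 * S (n + 1) ^ 2 by ring,
      show (κ * S n) * (κ * S (n + 2)) = κ ^ 2 * (S n * S (n + 2)) by ring]
  · have h1 : (fun n => (κ * S n) / (κ * S (n + 1))) = fun n => S n / S (n + 1) := by
      funext n
      rw [mul_div_mul_left _ _ hκ0.ne']
    show ¬ Summable (fun n => (κ * S n) / (κ * S (n + 1)))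
    rw [h1]
    exact hS3
  · set L : ℝ := v t with hL
    set s : ℝ := (a / 2) * Real.log t with hs
    have hts : t ^ (a / 2) = Real.exp s := by
      rw [Real.rpow_def_of_pos ht, hs, mul_comm]
    have hwt : w t ≤ Real.exp C₀ * Real.exp (-L) := by
      rw [← Real.exp_add, ← Real.exp_log (hw.pos t ht.le)]
      apply Real.exp_le_exp.2
      have := hv t ht
      rw [← hL] at this
      linarith
    have hes : Real.exp ((2 / a) * s) = t := by
      have h1 : (2 / a) * ((a / 2) * Real.log t) = Real.log t := by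
        field_simp
      rw [hs, h1, Real.exp_log ht]
    have hθs : θ s = L / 8 := by
      simp only [hθdef, hes, hL]
      ring
    have h4 := hS4 n s
    rw [hθs] at h4
    have h5 : Real.exp (n * s - L / 8) ^ 2 ≤ S n ^ 2 :=
      pow_le_pow_left₀ (Real.exp_pos _).le h4 2
    have h6 : Real.exp (n * s - L / 8) ^ 2 = Real.exp s ^ (2 * n) * Real.exp (-(L / 4)) := by
      rw [← Real.exp_nat_mul, ← Real.exp_nat_mul, ← Real.exp_add]
      congr 1
      push_cast
      ring
    have h7 : s ≤ t / 4 + (a / 2) * (Real.log (2 * a) - 1) := by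
      have h8 : Real.log (t / (2 * a)) ≤ t / (2 * a) - 1 :=
        Real.log_le_sub_one_of_pos (by positivity)
      rw [Real.log_div ht.ne' (by positivity)] at h8
      have h9 : (a / 2) * (Real.log t - Real.log (2 * a)) ≤ (a / 2) * (t / (2 * a) - 1) :=
        mul_le_mul_of_nonneg_left h8 (by positivity)
      have h10 : (a / 2) * (t / (2 * a) - 1) = t / 4 - a / 2 := by
        field_simp
        ring
      rw [hs]
      linarith
    have h8 : Real.exp s ≤ D * Real.exp (t / 4) := by
      rw [hD, ← Real.exp_add]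
      apply Real.exp_le_exp.2
      linarith
    have h9 : 1 + Real.exp s ≤ (1 + D) * Real.exp (t / 4) := by
      have h10 : 1 ≤ Real.exp (t / 4) := Real.one_le_exp (by positivity)
      linarith
    have h10 : (1 + Real.exp s) ^ 4 ≤ (1 + D) ^ 4 * Real.exp t := by
      have h11 : (1 + Real.exp s) ^ 4 ≤ ((1 + D) * Real.exp (t / 4)) ^ 4 :=
        pow_le_pow_left₀ (by positivity) h9 4
      have h12 : ((1 + D) * Real.exp (t / 4)) ^ 4 = (1 + D) ^ 4 * Real.exp t := by
        rw [mul_pow, ← Real.exp_nat_mul]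
        congr 2
        push_cast
        ring
      linarith
    have h11 : Real.exp (-(3 * L / 4) + c.re * t) ≤ Real.exp (3 * C / 4 - t) := by
      apply Real.exp_le_exp.2
      have h12 := hC t ht
      have h13 : c.re * t ≤ |c.re| * t := mul_le_mul_of_nonneg_right (le_abs_self _) ht.le
      have h14 : (4 / 3) * (|c.re| + 1) * t = (4 / 3) * (|c.re| * t) + (4 / 3) * t := by ring
      rw [h14, ← hL] at h12
      linarith
    have h12 : (1 + Real.exp s) ^ 4 * Real.exp (-(3 * L / 4) + c.re * t) ≤ κ₁ ^ 2 := by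
      calc (1 + Real.exp s) ^ 4 * Real.exp (-(3 * L / 4) + c.re * t)
          ≤ ((1 + D) ^ 4 * Real.exp t) * Real.exp (3 * C / 4 - t) :=
            mul_le_mul h10 h11 (Real.exp_pos _).le (by positivity)
        _ = κ₁ ^ 2 := by
            rw [hκ₁, mul_pow, mul_assoc, ← Real.exp_add, ← Real.exp_nat_mul, ← pow_mul]
            congr 2
            push_cast
            ring
    rw [hts]
    have h13 : Real.exp (-L) * Real.exp (c.re * t) =
        Real.exp (-(L / 4)) * Real.exp (-(3 * L / 4) + c.re * t) := by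
      rw [← Real.exp_add, ← Real.exp_add]
      congr 1
      ring
    have h14 : Real.exp (C₀ / 2) ^ 2 = Real.exp C₀ := by
      rw [← Real.exp_nat_mul]
      congr 1
      push_cast
      ring
    calc Real.exp s ^ (2 * n) * (1 + Real.exp s) ^ 4 * (w t * Real.exp (c.re * t))
        ≤ Real.exp s ^ (2 * n) * (1 + Real.exp s) ^ 4 *
          ((Real.exp C₀ * Real.exp (-L)) * Real.exp (c.re * t)) := by
          apply mul_le_mul_of_nonneg_left _ (by positivity)
          exact mul_le_mul_of_nonneg_right hwt (Real.exp_pos _).le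
      _ = Real.exp C₀ * (Real.exp s ^ (2 * n) * (1 + Real.exp s) ^ 4 *
          (Real.exp (-L) * Real.exp (c.re * t))) := by ring
      _ = Real.exp C₀ * ((Real.exp s ^ (2 * n) * Real.exp (-(L / 4))) *
          ((1 + Real.exp s) ^ 4 * Real.exp (-(3 * L / 4) + c.re * t))) := by rw [h13]; ring
      _ ≤ Real.exp C₀ * (S n ^ 2 * κ₁ ^ 2) := by
          apply mul_le_mul_of_nonneg_left _ (Real.exp_pos _).le
          rw [← h6]
          exact mul_le_mul h5 h12 (by positivity) (by positivity)
      _ = (κ * S n) ^ 2 := by rw [hκ, ← h14]; ring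

end Pool.Agent.Helper5.PG
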