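import Mathlib
import Pool.Agent.Helper5.Pg.Defs

set_option autoImplicit false
open MeasureTheory Set Filter Topology

namespace Pool.Agent.Helper5.PG

theorem int_transfer (η φ : ℝ → ℝ) (a C : ℝ) (ha : 0 < a) (hη : ContinuousOn η (Ici 0))
    (hη0 : ∀ t, 0 ≤ t → -C ≤ η t) (hφ : ∀ s, 0 ≤ φ s) (hφc : Continuous φ)
    (hle : ∀ t, 0 < t → η t ≤ φ (Real.log (2 * t)))
    (h : IntegrableOn (fun t : ℝ => φ (Real.log t) * t ^ (-(1 + a / 2))) (Ioi 1)) :
    IntegrableOn (fun t : ℝ => η t * t ^ (-(1 + a / 2))) (Ioi 1) := by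
  have h1 : IntegrableOn (fun t : ℝ => φ (Real.log (2 * t)) * (2 * t) ^ (-(1 + a / 2))) (Ioi (1 / 2)) := by
    have := (integrableOn_Ioi_comp_mul_left_iff
      (fun t : ℝ => φ (Real.log t) * t ^ (-(1 + a / 2))) (1 / 2) (a := 2) (by norm_num)).2
    apply this
    have e : (2 : ℝ) * (1 / 2) = 1 := by norm_num
    rw [e]
    exact h
  have h2 : IntegrableOn (fun t : ℝ => φ (Real.log (2 * t)) * (2 * t) ^ (-(1 + a / 2))) (Ioi 1) :=
    h1.mono_set (Ioi_subset_Ioi (by norm_num))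
  have h3 : IntegrableOn (fun t : ℝ => (2 : ℝ) ^ (1 + a / 2) *
      (φ (Real.log (2 * t)) * (2 * t) ^ (-(1 + a / 2)))) (Ioi 1) := h2.const_mul _
  have h4 : IntegrableOn (fun t : ℝ => |C| * t ^ (-(1 + a / 2))) (Ioi 1) :=
    (integrableOn_Ioi_rpow_of_lt (by linarith) one_pos).const_mul _
  have h5 := h3.add h4
  refine Integrable.mono' h5 ?_ ?_
  · apply ContinuousOn.aestronglyMeasurable _ measurableSet_Ioi
    apply ContinuousOn.mul
    · exact hη.mono (fun t ht => mem_Ici.2 (le_of_lt (lt_trans one_pos (mem_Ioi.1 ht))))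
    · apply ContinuousOn.rpow_const continuousOn_id
      intro t ht
      exact Or.inl (ne_of_gt (lt_trans one_pos (mem_Ioi.1 ht)))
  · refine (ae_restrict_iff' measurableSet_Ioi).2 (Filter.Eventually.of_forall (fun t ht => ?_))
    have ht0 : (0 : ℝ) < t := lt_trans one_pos (mem_Ioi.1 ht)
    have e1 : (2 : ℝ) ^ (1 + a / 2) * (φ (Real.log (2 * t)) * (2 * t) ^ (-(1 + a / 2)))
        = φ (Real.log (2 * t)) * t ^ (-(1 + a / 2)) := by
      rw [Real.mul_rpow (by norm_num) ht0.le, Real.rpow_neg (by norm_num : (0:ℝ) ≤ 2)]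
      have : (2 : ℝ) ^ (1 + a / 2) ≠ 0 := (Real.rpow_pos_of_pos (by norm_num) _).ne'
      field_simp
    have hp : 0 < t ^ (-(1 + a / 2)) := Real.rpow_pos_of_pos ht0 _
    have hb : |η t| ≤ φ (Real.log (2 * t)) + |C| := by
      rw [abs_le]
      have g1 := hη0 t ht0.le
      have g2 := hle t ht0
      have g3 := hφ (Real.log (2 * t))
      constructor
      · linarith [le_abs_self C]
      · linarith [abs_nonneg C]
    show ‖η t * t ^ (-(1 + a / 2))‖ ≤ (2 : ℝ) ^ (1 + a / 2) *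
      (φ (Real.log (2 * t)) * (2 * t) ^ (-(1 + a / 2))) + |C| * t ^ (-(1 + a / 2))
    rw [e1, Real.norm_eq_abs, abs_mul, abs_of_pos hp, ← add_mul]
    exact mul_le_mul_of_nonneg_right hb hp.le

end Pool.Agent.Helper5.PG
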