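import Mathlib
import Pool.Agent.Helper5.Pg.Defs
import Pool.Agent.Helper5.Pg.CpowPw
import Pool.Agent.Helper5.Pk.SincFun
import Pool.Agent.Helper5.Pk.SincMoment
import Pool.Agent.Helper5.Pk.SeqExists

set_option autoImplicit false
open MeasureTheory Set Filter Topology

namespace Pool.Agent.Helper5.PG

theorem not_gen_of_mono (w : ℝ → ℝ) (hw : IsWeight w) (L : ℝ → ℝ) (hLc : Continuous L)
    (hLm : Monotone L) (hL : ∀ t, 0 ≤ t → -Real.log (w t) ≤ L t) (a : ℝ)
    (ha : 2 < a) (c : ℂ)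
    (hint : IntegrableOn (fun t : ℝ => L t * t ^ (-(1 + a / 2))) (Ioi 1)) :
    ¬ IsPolyGen w (pw a c) := by
  intro hgen
  obtain ⟨-, hgen⟩ := hgen
  have ha0 : 0 < a := by linarith
  have ha2 : 0 < a / 2 := by linarith
  have h2a : 0 < 2 / a := by positivity
  have h2a1 : 2 / a < 1 := by rw [div_lt_one ha0]; exact ha
  choose C hC hCk using fun k => cpow_pw a ha0 c k
  obtain ⟨Ψ, hΨ⟩ : ∃ Ψ : ℝ → ℝ, Ψ = fun y => L ((max y 0) ^ (2 / a)) +
    ‖c‖ * (max y 0) ^ (2 / a) := ⟨_, rfl⟩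
  have hmc : Continuous (fun y : ℝ => (max y 0) ^ (2 / a)) :=
    (Real.continuous_rpow_const h2a.le).comp (continuous_id.max continuous_const)
  have hm0 : ∀ y : ℝ, 0 ≤ (max y 0) ^ (2 / a) := fun y =>
    Real.rpow_nonneg (le_max_right _ _) _
  have hΨc : Continuous Ψ := by
    rw [hΨ]
    exact (hLc.comp hmc).add (continuous_const.mul hmc)
  have hmm : ∀ x y : ℝ, x ≤ y → (max x 0) ^ (2 / a) ≤ (max y 0) ^ (2 / a) := by
    intro x y hxy
    exact Real.rpow_le_rpow (le_max_right _ _) (max_le_max hxy le_rfl) h2a.le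
  have hΨm : Monotone Ψ := by
    intro x y hxy
    rw [hΨ]
    have h1 := hmm x y hxy
    have h3 := hLm h1
    have h4 := mul_le_mul_of_nonneg_left h1 (norm_nonneg c)
    show L ((max x 0) ^ (2 / a)) + ‖c‖ * (max x 0) ^ (2 / a) ≤
      L ((max y 0) ^ (2 / a)) + ‖c‖ * (max y 0) ^ (2 / a)
    linarith
  have hΨi : IntegrableOn (fun y : ℝ => Ψ y / y ^ 2) (Ioi 1) := by
    have e1 : IntegrableOn (fun y : ℝ => L (y ^ (2 / a)) * y ^ (-2 : ℝ)) (Ioi 1) := by
      have h1 : IntegrableOn ((Ioi (1:ℝ)).indicator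
          (fun t : ℝ => L t * t ^ (-(1 + a / 2)))) (Ioi 0) :=
        (hint.integrable_indicator measurableSet_Ioi).integrableOn
      have h2 := (integrableOn_Ioi_comp_rpow_iff' _ h2a.ne').mpr h1
      have h3 := h2.mono_set (Ioi_subset_Ioi (zero_le_one))
      refine h3.congr_fun ?_ measurableSet_Ioi
      intro y hy
      have hy1 : (1:ℝ) < y := hy
      have hy0 : (0:ℝ) < y := by linarith
      have hy2 : y ^ (2 / a) ∈ Ioi (1:ℝ) := Real.one_lt_rpow hy1 h2a
      simp only [indicator_of_mem hy2, smul_eq_mul]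
      rw [← Real.rpow_mul hy0.le]
      have : y ^ (2 / a - 1) * (L (y ^ (2 / a)) * y ^ (2 / a * -(1 + a / 2))) =
        L (y ^ (2 / a)) * (y ^ (2 / a - 1) * y ^ (2 / a * -(1 + a / 2))) := by ring
      rw [this, ← Real.rpow_add hy0]
      congr 2
      field_simp
      ring
    have e2 : IntegrableOn (fun y : ℝ => ‖c‖ * y ^ (2 / a - 2)) (Ioi 1) :=
      (integrableOn_Ioi_rpow_of_lt (by linarith) one_pos).const_mul _
    refine (e1.add e2).congr_fun ?_ measurableSet_Ioi
    intro y hy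
    have hy1 : (1:ℝ) < y := hy
    have hy0 : (0:ℝ) < y := by linarith
    simp only [Pi.add_apply]
    rw [hΨ]
    simp only [max_eq_left hy0.le]
    rw [Real.rpow_sub hy0, Real.rpow_neg hy0.le, Real.rpow_two]
    field_simp
  obtain ⟨b, hb, hbs, C', hC', hbd⟩ := seq_exists Ψ hΨc hΨm hΨi
  obtain ⟨f, hfc, hf0, hft⟩ := sinc_fun b hb hbs
  have hfb : ∀ y : ℝ, 0 ≤ y → |f y| ≤ C' * Real.exp (-Ψ y) := by
    intro y hy
    refine le_of_tendsto (hft y).abs ?_
    filter_upwards [hbd y hy] with N hN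
    rwa [Finset.abs_prod]
  obtain ⟨B, hB⟩ : ∃ B, B = ∑' n, b n + 1 := ⟨_, rfl⟩
  have hB1 : ∑' n, b n < B := by rw [hB]; linarith
  have hB0 : 0 < B := lt_of_le_of_lt (tsum_nonneg (fun n => (hb n).le)) hB1
  have hmom := sinc_moment b hb hbs f hft B hB1
  obtain ⟨Gr, hGr⟩ : ∃ Gr : ℝ → ℝ, Gr = fun t => Real.sin (B * t ^ (a / 2)) * f (t ^ (a / 2)) :=
    ⟨_, rfl⟩
  have hann : ∀ k : ℕ, IntegrableOn (fun t : ℝ => t ^ (a * (k + 1) - 1) * Gr t) (Ioi 0) ∧
      ∫ t in Ioi (0:ℝ), t ^ (a * (k + 1) - 1) * Gr t = 0 := by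
    intro k
    obtain ⟨h1, h2⟩ := hmom k
    have key : ∀ t ∈ Ioi (0:ℝ), t ^ (a / 2 - 1) • ((t ^ (a / 2)) ^ (2 * k + 1) *
        (Real.sin (B * t ^ (a / 2)) * f (t ^ (a / 2)))) = t ^ (a * (k + 1) - 1) * Gr t := by
      intro t ht
      have ht0 : (0:ℝ) < t := ht
      rw [hGr, smul_eq_mul, ← Real.rpow_natCast, ← Real.rpow_mul ht0.le, ← mul_assoc,
        ← Real.rpow_add ht0]
      congr 2
      push_cast
      ring
    constructor
    · have h3 := (integrableOn_Ioi_comp_rpow_iff' _ ha2.ne').mpr h1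
      exact h3.congr_fun key measurableSet_Ioi
    · have h3 := integral_comp_rpow_Ioi_of_pos (g := fun y : ℝ => y ^ (2 * k + 1) *
        (Real.sin (B * y) * f y)) ha2
      rw [h2] at h3
      have h4 : ∫ t in Ioi (0:ℝ), (a / 2 * t ^ (a / 2 - 1)) • ((t ^ (a / 2)) ^ (2 * k + 1) *
        (Real.sin (B * t ^ (a / 2)) * f (t ^ (a / 2)))) =
          ∫ t in Ioi (0:ℝ), (a / 2) * (t ^ (a * (k + 1) - 1) * Gr t) := by
        apply setIntegral_congr_fun measurableSet_Ioi
        intro t ht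
        simp only
        rw [← key t ht, smul_eq_mul, smul_eq_mul]
        ring
      rw [h4, integral_const_mul] at h3
      exact (mul_eq_zero.mp h3).resolve_left ha2.ne'
  obtain ⟨G, hG⟩ : ∃ G : ℝ → ℂ, G = fun t => (Gr t : ℂ) * Complex.exp (-(c * t)) := ⟨_, rfl⟩
  have hcp : Continuous (fun t : ℝ => t ^ (a / 2)) := Real.continuous_rpow_const ha2.le
  have hGrc : Continuous Gr := by
    rw [hGr]
    exact (Real.continuous_sin.comp (continuous_const.mul hcp)).mul (hfc.comp hcp)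
  have hGc : Continuous G := by
    rw [hG]
    refine (Complex.continuous_ofReal.comp hGrc).mul (Complex.continuous_exp.comp ?_)
    exact (continuous_const.mul Complex.continuous_ofReal).neg
  have hGb : ∀ t : ℝ, 0 ≤ t → ‖G t‖ ≤ C' * w t := by
    intro t ht
    have h0 : 0 ≤ t ^ (a / 2) := Real.rpow_nonneg ht _
    have h1 : ‖G t‖ = |Gr t| * Real.exp (-(c.re * t)) := by
      rw [hG]
      simp only [norm_mul, Complex.norm_real, Real.norm_eq_abs, Complex.norm_exp]
      congr 2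
      simp
    have h2 : |Gr t| ≤ C' * Real.exp (-Ψ (t ^ (a / 2))) := by
      rw [hGr]
      simp only [abs_mul]
      calc _ ≤ 1 * |f (t ^ (a / 2))| :=
            mul_le_mul_of_nonneg_right (Real.abs_sin_le_one _) (abs_nonneg _)
        _ = |f (t ^ (a / 2))| := one_mul _
        _ ≤ _ := hfb _ h0
    have h2' : Ψ (t ^ (a / 2)) = L t + ‖c‖ * t := by
      rw [hΨ]
      simp only [max_eq_left h0]
      rw [← Real.rpow_mul ht]
      have : a / 2 * (2 / a) = 1 := by field_simp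
      rw [this, Real.rpow_one]
    have h3 : -(c.re * t) ≤ ‖c‖ * t := by
      have := neg_le_of_abs_le (Complex.abs_re_le_norm c)
      nlinarith
    have h4 : ‖G t‖ ≤ (C' * Real.exp (-Ψ (t ^ (a / 2)))) * Real.exp (‖c‖ * t) := by
      rw [h1]
      exact mul_le_mul h2 (Real.exp_le_exp.mpr h3) (Real.exp_pos _).le
        (mul_pos hC' (Real.exp_pos _)).le
    rw [h2', mul_assoc, ← Real.exp_add] at h4
    have h5 : -(L t + ‖c‖ * t) + ‖c‖ * t = -L t := by ring
    rw [h5] at h4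
    refine h4.trans (mul_le_mul_of_nonneg_left ?_ hC'.le)
    rw [← Real.exp_log (hw.pos t ht)]
    apply Real.exp_le_exp.2
    have := hL t ht
    linarith
  obtain ⟨η, hη0, hη⟩ : ∃ η : ℝ, 0 < η ∧ ∀ y : ℝ, |y| < η → 0 < f y := by
    have h1 : ∀ᶠ y in 𝓝 (0:ℝ), 0 < f y := by
      have h2 : Tendsto f (𝓝 0) (𝓝 1) := by
        have := hfc.tendsto 0
        rwa [hf0] at this
      exact h2.eventually (lt_mem_nhds one_pos)
    obtain ⟨η, hη0, hη⟩ := Metric.eventually_nhds_iff.mp h1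
    refine ⟨η, hη0, fun y hy => hη ?_⟩
    rwa [Real.dist_eq, sub_zero]
  obtain ⟨δ, hδ⟩ : ∃ δ, δ = min 1 (min η (1 / B)) := ⟨_, rfl⟩
  have hδ0 : 0 < δ := by rw [hδ]; positivity
  have hδ1 : δ ≤ 1 := by rw [hδ]; exact min_le_left _ _
  have hδ2 : δ ≤ 1 / B := by rw [hδ]; exact (min_le_right _ _).trans (min_le_right _ _)
  have hδ3 : δ ≤ η := by rw [hδ]; exact (min_le_right _ _).trans (min_le_left _ _)
  have hGne : ∀ t : ℝ, 0 < t → t < δ → 0 < Complex.normSq (G t) := by
    intro t ht htd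
    rw [Complex.normSq_pos, hG]
    refine mul_ne_zero ?_ (Complex.exp_ne_zero _)
    rw [Complex.ofReal_ne_zero, hGr]
    have h1 : t ^ (a / 2) ≤ t := by
      have := Real.rpow_le_rpow_of_exponent_ge ht (by linarith) (show (1:ℝ) ≤ a / 2 by linarith)
      simpa using this
    have h2 : 0 < t ^ (a / 2) := Real.rpow_pos_of_pos ht _
    refine mul_ne_zero ?_ ?_
    · apply ne_of_gt
      apply Real.sin_pos_of_pos_of_le_one (by positivity)
      calc B * t ^ (a / 2) ≤ B * (1 / B) :=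
            mul_le_mul_of_nonneg_left (by linarith) hB0.le
        _ = 1 := by field_simp
    · apply ne_of_gt
      apply hη
      rw [abs_of_pos h2]
      linarith
  obtain ⟨h, hh⟩ : ∃ h : ℝ → ℂ, h = (Ioc 0 δ).indicator (fun t => (starRingEnd ℂ) (G t)) := ⟨_, rfl⟩
  have hwc : ContinuousOn w (Icc 0 δ) := hw.cont.mono (fun x hx => hx.1)
  have hL1 : InL1 w h := by
    unfold InL1
    have e : (fun t : ℝ => h t * (w t : ℂ)) =
        (Ioc 0 δ).indicator (fun t => (starRingEnd ℂ) (G t) * (w t : ℂ)) := by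
      funext t
      rw [hh]
      by_cases ht : t ∈ Ioc 0 δ
      · simp [indicator_of_mem ht]
      · simp [indicator_of_notMem ht]
    rw [e]
    refine (IntegrableOn.integrable_indicator ?_ measurableSet_Ioc).integrableOn
    refine (ContinuousOn.integrableOn_Icc ?_).mono_set Ioc_subset_Icc_self
    exact (Complex.continuous_conj.comp hGc).continuousOn.mul
      (Complex.continuous_ofReal.comp_continuousOn hwc)
  obtain ⟨I, hI⟩ : ∃ I : ℝ, I = ∫ t in Ioc 0 δ, Complex.normSq (G t) := ⟨_, rfl⟩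
  have hnc : Continuous (fun t => Complex.normSq (G t)) := Complex.continuous_normSq.comp hGc
  have hI0 : 0 < I := by
    rw [hI, ← intervalIntegral.integral_of_le hδ0.le]
    exact intervalIntegral.intervalIntegral_pos_of_pos_on (hnc.intervalIntegrable _ _)
      (fun x hx => hGne x hx.1 hx.2) hδ0
  obtain ⟨n, cc, hn⟩ := hgen h hL1 (I / (2 * C')) (by positivity)
  obtain ⟨D, hD⟩ : ∃ D : ℝ → ℂ, D = fun t => h t - ∑ k ∈ Finset.range n, cc k * cpow (pw a c) k t := ⟨_, rfl⟩
  have hn' : ∫⁻ t in Ioi (0:ℝ), ENNReal.ofReal (‖D t‖ * w t) < ENNReal.ofReal (I / (2 * C')) := by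
    rw [hD]; exact hn
  -- upper bound
  have hub : ‖∫ t in Ioi (0:ℝ), D t * G t‖ₑ ≤ ENNReal.ofReal (I / 2) := by
    calc ‖∫ t in Ioi (0:ℝ), D t * G t‖ₑ ≤ ∫⁻ t in Ioi (0:ℝ), ‖D t * G t‖ₑ :=
          enorm_integral_le_lintegral_enorm _
      _ ≤ ∫⁻ t in Ioi (0:ℝ), ENNReal.ofReal C' * ENNReal.ofReal (‖D t‖ * w t) := by
          apply setLIntegral_mono' measurableSet_Ioi
          intro t ht
          rw [← ENNReal.ofReal_mul hC'.le, ← ofReal_norm]
          apply ENNReal.ofReal_le_ofReal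
          rw [norm_mul]
          have := mul_le_mul_of_nonneg_left (hGb t (le_of_lt ht)) (norm_nonneg (D t))
          linarith
      _ = ENNReal.ofReal C' * ∫⁻ t in Ioi (0:ℝ), ENNReal.ofReal (‖D t‖ * w t) :=
          lintegral_const_mul' _ _ ENNReal.ofReal_ne_top
      _ ≤ ENNReal.ofReal C' * ENNReal.ofReal (I / (2 * C')) := by gcongr
      _ = ENNReal.ofReal (I / 2) := by
          rw [← ENNReal.ofReal_mul hC'.le]
          congr 1
          field_simp
  -- exact value
  have hhG : (fun t => h t * G t) = (Ioc 0 δ).indicator (fun t => ((Complex.normSq (G t) : ℝ) : ℂ)) := by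
    funext t
    rw [hh]
    by_cases ht : t ∈ Ioc 0 δ
    · simp only [indicator_of_mem ht]
      rw [Complex.normSq_eq_conj_mul_self]
    · simp [indicator_of_notMem ht]
  have hint1 : IntegrableOn (fun t => h t * G t) (Ioi 0) := by
    rw [hhG]
    refine (IntegrableOn.integrable_indicator ?_ measurableSet_Ioc).integrableOn
    exact (ContinuousOn.integrableOn_Icc
      (Complex.continuous_ofReal.comp hnc).continuousOn).mono_set Ioc_subset_Icc_self
  have hval1 : ∫ t in Ioi (0:ℝ), h t * G t = (I : ℂ) := by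
    rw [hhG, setIntegral_indicator measurableSet_Ioc]
    have : Ioi (0:ℝ) ∩ Ioc 0 δ = Ioc 0 δ := inter_eq_right.mpr (fun x hx => hx.1)
    rw [this, hI]
    exact integral_ofReal
  have hterm : ∀ k : ℕ, ∀ t ∈ Ioi (0:ℝ), cc k * cpow (pw a c) k t * G t =
      cc k * (C k : ℂ) * (((t ^ (a * (k + 1) - 1) * Gr t : ℝ)) : ℂ) := by
    intro k t ht
    rw [hCk k t ht, hG]
    simp only [pw]
    have : Complex.exp (c * t) * Complex.exp (-(c * t)) = 1 := by
      rw [← Complex.exp_add]; simp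
    push_cast
    calc _ = cc k * (C k : ℂ) * (((t ^ (a * (k + 1) - 1) : ℝ) : ℂ) * (Gr t : ℂ)) *
            (Complex.exp (c * t) * Complex.exp (-(c * t))) := by ring
      _ = _ := by rw [this, mul_one]
  have hint2 : ∀ k : ℕ, IntegrableOn (fun t => cc k * cpow (pw a c) k t * G t) (Ioi 0) := by
    intro k
    rw [integrableOn_congr_fun (hterm k) measurableSet_Ioi]
    exact Integrable.const_mul (hann k).1.ofReal _
  have hval2 : ∀ k : ℕ, ∫ t in Ioi (0:ℝ), cc k * cpow (pw a c) k t * G t = 0 := by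
    intro k
    rw [setIntegral_congr_fun measurableSet_Ioi (hterm k), integral_const_mul]
    have := (hann k).2
    rw [integral_complex_ofReal, this]
    simp
  have hval : ∫ t in Ioi (0:ℝ), D t * G t = (I : ℂ) := by
    have e : (fun t => D t * G t) = fun t => h t * G t -
        ∑ k ∈ Finset.range n, cc k * cpow (pw a c) k t * G t := by
      funext t
      rw [hD]
      simp only [sub_mul, Finset.sum_mul]
    rw [e, integral_sub hint1 (integrable_finsetSum _ (fun k _ => hint2 k)), hval1,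
      integral_finsetSum _ (fun k _ => hint2 k)]
    simp [hval2]
  rw [hval, ← ofReal_norm] at hub
  rw [ENNReal.ofReal_le_ofReal_iff (by positivity)] at hub
  rw [Complex.norm_real, Real.norm_of_nonneg hI0.le] at hub
  linarith

end Pool.Agent.Helper5.PG
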