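import Mathlib
import Pool.Agent.Helper5.Pg.Defs
import Pool.Agent.Helper5.Pg.RadicalBound
import Pool.Agent.Helper5.Pk.SmallA
import Pool.Agent.Helper5.Pa.GenOfCvx
import Pool.Agent.Helper5.Pa.NotGenOfMono
import Pool.Agent.Helper5.Pa.ExistsConvex
import Pool.Agent.Helper5.Pa.IntTransfer
import Pool.Agent.Helper5.Pa.ExistsMono

set_option autoImplicit false

open MeasureTheory Set Filter Topology

namespace Pool.Agent.Helper5.PG

theorem radical_bdd (w : ℝ → ℝ) (hw : IsWeight w) (hr : IsRadical w) :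
    ∃ K : ℝ, ∀ t, 0 ≤ t → w t ≤ K := by
  obtain ⟨K, hK⟩ := radical_bound w hw hr 0
  exact ⟨K, fun t ht => by simpa using hK t ht⟩

theorem log_lower (w : ℝ → ℝ) (hw : IsWeight w) (hr : IsRadical w) (m : ℝ) :
    ∃ C : ℝ, ∀ t, 0 ≤ t → m * t - C ≤ -Real.log (w t) := by
  obtain ⟨K, hK⟩ := radical_bound w hw hr m
  have hK0 : 0 < K := by
    have h1 := hK 0 le_rfl
    have h2 := hw.pos 0 le_rfl
    simp only [mul_zero, neg_zero, Real.exp_zero, mul_one] at h1
    linarith
  refine ⟨Real.log K, fun t ht => ?_⟩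
  have h1 := Real.log_le_log (hw.pos t ht) (hK t ht)
  rw [Real.log_mul hK0.ne' (Real.exp_pos _).ne', Real.log_exp] at h1
  linarith

theorem cont_neglog (w : ℝ → ℝ) (hw : IsWeight w) :
    ContinuousOn (fun t : ℝ => -Real.log (w t)) (Ici 0) :=
  (hw.cont.log (fun t ht => (hw.pos t ht).ne')).neg

/-- density for every radical weight -/
theorem gen_any (w : ℝ → ℝ) (hw : IsWeight w) (hr : IsRadical w) (a : ℝ) (ha : 0 < a) (c : ℂ)
    (hint : ¬ IntegrableOn (fun t : ℝ => -Real.log (w t) * t ^ (-(1 + a / 2))) (Ioi 1)) :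
    IsPolyGen w (pw a c) := by
  obtain ⟨φ, hφ, hφ0, C, hC⟩ := exists_convex w hw (radical_bdd w hw hr)
  have hφc : Continuous φ := by
    rw [← continuousOn_univ]
    exact ConvexOn.continuousOn isOpen_univ hφ
  refine gen_of_cvx w hw hr (fun t => φ (Real.log t)) C ?_ ?_ ?_ a ha c ?_
  · simpa only [Real.log_exp] using hφ
  · intro t ht
    have := (hC (Real.log t)).1
    rwa [Real.exp_log ht] at this
  · intro m
    obtain ⟨C', hC'⟩ := log_lower w hw hr (2 * m)
    refine ⟨C', fun t ht => ?_⟩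
    have h1 := (hC (Real.log t)).2
    rw [Real.exp_log ht] at h1
    have h2 := hC' (t / 2) (by positivity)
    show m * t - C' ≤ φ (Real.log t)
    linarith
  · intro h
    obtain ⟨C', hC'⟩ := log_lower w hw hr 0
    refine hint (int_transfer (fun t => -Real.log (w t)) φ a C' ha (cont_neglog w hw) ?_ hφ0 hφc
      ?_ h)
    · intro t ht
      have := hC' t ht
      simpa using this
    · intro t ht
      have h1 := (hC (Real.log (2 * t))).2
      rw [Real.exp_log (by positivity)] at h1
      have h2 : 2 * t / 2 = t := by ring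
      rwa [h2] at h1

/-- non-density for every radical weight -/
theorem not_gen_any (w : ℝ → ℝ) (hw : IsWeight w) (hr : IsRadical w) (a : ℝ) (ha : 2 < a) (c : ℂ)
    (hint : IntegrableOn (fun t : ℝ => -Real.log (w t) * t ^ (-(1 + a / 2))) (Ioi 1)) :
    ¬ IsPolyGen w (pw a c) := by
  obtain ⟨L, hLc, hLm, C, hL⟩ := exists_mono w hw (radical_bdd w hw hr)
  refine not_gen_of_mono w hw L hLc hLm (fun t ht => (hL t ht).1) a ha c ?_
  have h1 : IntegrableOn (fun t : ℝ => t ^ (-(1 + a / 2))) (Ioi 1) :=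
    integrableOn_Ioi_rpow_of_lt (by linarith) one_pos
  have h2 : IntegrableOn (fun t : ℝ => |(-Real.log (w t) * t ^ (-(1 + a / 2)))| +
      |C| * t ^ (-(1 + a / 2))) (Ioi 1) := (Integrable.abs hint).add (h1.const_mul |C|)
  refine Integrable.mono' h2 ?_ ?_
  · refine ContinuousOn.aestronglyMeasurable ?_ measurableSet_Ioi
    refine hLc.continuousOn.mul ?_
    refine ContinuousOn.rpow_const continuousOn_id (fun t ht => Or.inl ?_)
    exact (lt_trans one_pos ht).ne'
  · refine (ae_restrict_iff' measurableSet_Ioi).mpr (ae_of_all _ fun t ht => ?_)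
    have ht0 : (0:ℝ) < t := lt_trans one_pos ht
    have hp : 0 < t ^ (-(1 + a / 2)) := Real.rpow_pos_of_pos ht0 _
    obtain ⟨h3, h4⟩ := hL t ht0.le
    rw [Real.norm_eq_abs, abs_mul, abs_mul, abs_of_pos hp, ← add_mul]
    refine mul_le_mul_of_nonneg_right ?_ hp.le
    rw [abs_le]
    constructor
    · have := neg_abs_le (-Real.log (w t))
      have := abs_nonneg C
      linarith
    · have := le_abs_self (-Real.log (w t))
      have := le_abs_self C
      linarith

theorem pw_iff (w : ℝ → ℝ) (hw : IsWeight w) (hr : IsRadical w) (a : ℝ) (ha : 0 < a) (c : ℂ) :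
    IsPolyGen w (pw a c) ↔
      ¬ IntegrableOn (fun t : ℝ => -Real.log (w t) * t ^ (-(1 + a / 2))) (Ioi 1) := by
  constructor
  · intro h hint
    rcases le_or_gt a 2 with h2 | h2
    · exact small_a w hw hr a ha h2 hint
    · exact not_gen_any w hw hr a h2 c hint h
  · exact gen_any w hw hr a ha c

end Pool.Agent.Helper5.PG
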