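import Mathlib
import Pool.Agent.Helper5.Pt.Final
import Pool.Agent.Helper5.Pa.Any

set_option autoImplicit false

open MeasureTheory Set Filter Topology

namespace Pool.Agent.Helper5.PG

theorem general_iff_any (w : ℝ → ℝ) (hw : IsWeight w) (hr : IsRadical w)
    (a : ℝ) (f k : ℝ → ℂ) (c b : ℂ) (ha : 1 ≤ a) (hc : c ≠ 0) (hk : Measurable k)
    (hkb : ∃ C m : ℝ, ∀ t, 0 < t → ‖k t‖ ≤ C * Real.exp (m * t))
    (hf : ∀ t, 0 < t → f t = c * ((t ^ (a - 1) : ℝ) : ℂ) + b * ((t ^ a : ℝ) : ℂ) +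
      ∫ s in (0:ℝ)..t, (((t - s) ^ a : ℝ) : ℂ) * k s) :
    IsPolyGen w f ↔
      ¬ IntegrableOn (fun t : ℝ => -Real.log (w t) * t ^ (-(1 + a / 2))) (Ioi 1) := by
  obtain ⟨C, m, k1, hk1, he⟩ := form_eq a f k c b hc hk hkb hf
  constructor
  · intro h
    have h1 : IsPolyGen w (c • FF a (b / c) k1) := gen_congr w hw f _ he h
    have h2 : IsPolyGen w (FF a (b / c) k1) := by
      have := gen_smul w hw _ c⁻¹ (inv_ne_zero hc) h1
      rwa [smul_smul, inv_mul_cancel₀ hc, one_smul] at this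
    exact (pw_iff w hw hr a (by linarith) _).mp (ff_backward w hw hr a ha _ C m k1 hk1 h2)
  · intro hint
    refine gen_congr w hw _ f (fun t ht => (he t ht).symm) (gen_smul w hw _ c hc ?_)
    exact ff_forward w hw hr a ha _ C m k1 hk1 ((pw_iff w hw hr a (by linarith) _).mpr hint)

end Pool.Agent.Helper5.PG
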